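import Pool.Agent.Helper29.E3.St2

/-!
# Project E3, module GBD: bound for all Gauss sums
-/

set_option autoImplicit false

namespace Pool.Agent.Helper78.E3

open Finset ArithmeticFunction
open Pool.Agent.Helper29.E3 Pool.Agent.Helper49.PC
open Pool.Agent.Helper48.BK (ex th lz Vz Pz gs nd Apx AdN Sol thd)
open scoped ComplexConjugate

theorem totient_mul_le_GBD (a n : ℕ) : Nat.totient (a * n) ≤ a * Nat.totient n := by
  induction a using induction_on_primes with
  | zero => simp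
  | one => simp
  | prime_mul p a hp ih =>
    have h1 : Nat.totient (p * (a * n)) ≤ p * Nat.totient (a * n) := by
      by_cases h : p ∣ a * n
      · rw [Nat.totient_mul_of_prime_of_dvd hp h]
      · rw [Nat.totient_mul_of_prime_of_not_dvd hp h]
        exact Nat.mul_le_mul_right _ (Nat.sub_le p 1)
    calc Nat.totient (p * a * n) = Nat.totient (p * (a * n)) := by rw [mul_assoc]
      _ ≤ p * Nat.totient (a * n) := h1
      _ ≤ p * (a * Nat.totient n) := Nat.mul_le_mul_left p ih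
      _ = p * a * Nat.totient n := by ring

private theorem pars_GBD (h3 : StGPV) (N q : ℕ) [NeZero N] (h : N = q * 1) (hq : 1 ≤ q)
    (χ : DirichletCharacter ℂ N) :
    ∑ i ∈ range N, ‖Gs χ i‖ ^ 2 = (N : ℝ) / Nat.totient N := by
  subst h
  have h := (h3 q 1 {χ} (fun _ => 1) 0 hq le_rfl).1
  rw [Finset.sum_singleton, norm_one, one_pow, mul_one (((q * 1 : ℕ) : ℝ) / _)] at h
  rw [← h]
  refine Finset.sum_congr rfl fun i _ => ?_
  rw [Finset.sum_singleton, one_mul]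

/-- multiples of `i` modulo `q` -/
private theorem key_GBD (q : ℕ) (hq : 1 ≤ q) (i : ℤ) : ∃ q' : ℕ, q = Int.gcd i q * q' ∧ 1 ≤ q' ∧
    ∀ m : ℤ, (q : ℤ) ∣ m * i → (q' : ℤ) ∣ m := by
  have hg : 0 < Int.gcd i q := Int.gcd_pos_of_ne_zero_right _ (by exact_mod_cast (by omega : q ≠ 0))
  obtain ⟨i', n', hco, hi, hn⟩ := Int.exists_gcd_one hg
  set δ := Int.gcd i q with hδ
  have hδ0 : (0 : ℤ) < (δ : ℤ) := by exact_mod_cast hg
  have hn0 : 0 < n' := by
    have h1 : (0 : ℤ) < n' * δ := by rw [← hn]; exact_mod_cast hq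
    exact pos_of_mul_pos_left h1 hδ0.le
  lift n' to ℕ using hn0.le
  refine ⟨n', ?_, by exact_mod_cast hn0, fun m => ?_⟩
  · have : (q : ℤ) = δ * n' := by rw [hn]; ring
    exact_mod_cast this
  have hc : IsCoprime (n' : ℤ) i' := (Int.isCoprime_iff_gcd_eq_one.2 hco).symm
  intro h
  rw [hi, hn, ← mul_assoc] at h
  have h1 : (n' : ℤ) ∣ m * i' := Int.dvd_of_mul_dvd_mul_right hδ0.ne' h
  exact hc.dvd_of_dvd_mul_right h1

theorem hGBD (hGUN : StGUN) (hGPV : StGPV) : StGBD := by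
  intro q hq0 χ i
  have hq : 1 ≤ q := Nat.one_le_iff_ne_zero.2 (NeZero.ne q)
  obtain ⟨hper, hmul, hnorm⟩ := hGUN q χ
  have hP : Function.Periodic (Gs χ) (q : ℤ) := fun i => hper i
  have hcong : ∀ a b : ℤ, (q : ℤ) ∣ a - b → Gs χ a = Gs χ b := by
    rintro a b ⟨m, hm⟩
    have h := hP.int_mul m b
    rw [← h]
    congr 1
    rw [Int.cast_id]
    linarith [mul_comm m (q : ℤ)]
  obtain ⟨q', hqq, hq'1, hkey⟩ := key_GBD q hq i
  have hd : q' ∣ q := ⟨Int.gcd i q, by rw [mul_comm]; exact hqq⟩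
  have hu : ∀ x : (ZMod q)ˣ, IsCoprime (((x : ZMod q).val : ℕ) : ℤ) (q : ℤ) := fun x =>
    Nat.isCoprime_iff_coprime.2 (ZMod.val_coe_unit_coprime x)
  have hum : ∀ x : (ZMod q)ˣ, (((((x : ZMod q).val : ℕ) : ℤ) : ZMod q') = ZMod.unitsMap hd x) := by
    intro x
    rw [ZMod.unitsMap_val, Int.cast_natCast, ZMod.natCast_val]
  have : NeZero q' := ⟨by omega⟩
  have hs := ZMod.unitsMap_surjective hd
  choose lift hlift using hs
  let u : (ZMod q')ˣ → ℤ := fun w => (((lift w : ZMod q).val : ℕ) : ℤ)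
  let r : (ZMod q')ˣ → ℕ := fun w => ((u w * i) % q).toNat
  have hqp : (0 : ℤ) < q := by exact_mod_cast hq
  have hr : ∀ w, (r w : ℤ) = (u w * i) % q := fun w =>
    Int.toNat_of_nonneg (Int.emod_nonneg _ hqp.ne')
  have hrlt : ∀ w, r w < q := by
    intro w
    have h : (r w : ℤ) < q := by rw [hr w]; exact Int.emod_lt_of_pos _ hqp
    exact_mod_cast h
  have hrG : ∀ w, ‖Gs χ (r w)‖ = ‖Gs χ i‖ := by
    intro w
    have e1 : Gs χ (r w) = Gs χ (u w * i) := by
      apply hcong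
      rw [hr w]
      exact ⟨-((u w * i) / q), by rw [Int.emod_def]; ring⟩
    rw [e1, hmul (u w) i (hu (lift w)), norm_mul, hnorm (u w) (hu (lift w)), one_mul]
  have hinj : Function.Injective r := by
    intro w w' h
    have e1 : (u w * i) % q = (u w' * i) % q := by rw [← hr w, ← hr w', h]
    have e2 : (q : ℤ) ∣ (u w - u w') * i := by
      rw [sub_mul]
      exact Int.ModEq.dvd (Eq.symm e1 : (u w' * i) ≡ (u w * i) [ZMOD q])
    have e3 := hkey _ e2
    have e4 : ((u w : ℤ) : ZMod q') = ((u w' : ℤ) : ZMod q') := by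
      rw [← sub_eq_zero, ← Int.cast_sub]
      exact (ZMod.intCast_zmod_eq_zero_iff_dvd _ _).2 e3
    have e5 : (u w : ZMod q') = w := by
      have := hum (lift w)
      rw [hlift w] at this
      exact this
    have e6 : (u w' : ZMod q') = w' := by
      have := hum (lift w')
      rw [hlift w'] at this
      exact this
    rw [e5, e6] at e4
    exact Units.ext e4
  have hsum : (Nat.totient q' : ℝ) * ‖Gs χ i‖ ^ 2 ≤ ∑ j ∈ range q, ‖Gs χ j‖ ^ 2 := by
    have e1 : (Nat.totient q' : ℝ) * ‖Gs χ i‖ ^ 2 = ∑ w : (ZMod q')ˣ, ‖Gs χ (r w)‖ ^ 2 := by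
      rw [Finset.sum_congr rfl fun w _ => by rw [hrG w], Finset.sum_const, Finset.card_univ,
        ZMod.card_units_eq_totient, nsmul_eq_mul]
    have e2 : ∑ w : (ZMod q')ˣ, ‖Gs χ (r w)‖ ^ 2 = ∑ j ∈ univ.image r, ‖Gs χ j‖ ^ 2 := by
      rw [Finset.sum_image fun a _ b _ h => hinj h]
    rw [e1, e2]
    refine Finset.sum_le_sum_of_subset_of_nonneg ?_ fun _ _ _ => sq_nonneg _
    intro j hj
    obtain ⟨w, _, rfl⟩ := Finset.mem_image.1 hj
    exact Finset.mem_range.2 (hrlt w)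
  rw [pars_GBD hGPV q q (mul_one q).symm hq χ] at hsum
  have hφ : (0 : ℝ) < Nat.totient q := by exact_mod_cast Nat.totient_pos.2 hq
  have h5 : (Nat.totient q : ℝ) ≤ (Int.gcd i q : ℝ) * Nat.totient q' := by
    have h : Nat.totient q ≤ Int.gcd i q * Nat.totient q' := by
      calc Nat.totient q = Nat.totient (Int.gcd i q * q') := by rw [← hqq]
        _ ≤ _ := totient_mul_le_GBD _ _
    exact_mod_cast h
  have hG : 0 ≤ ‖Gs χ i‖ ^ 2 := sq_nonneg _
  rw [le_div_iff₀ hφ] at hsum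
  have hδ : (0 : ℝ) ≤ (Int.gcd i q : ℝ) := Nat.cast_nonneg _
  calc (Nat.totient q : ℝ) ^ 2 * ‖Gs χ i‖ ^ 2
      = Nat.totient q * (Nat.totient q * ‖Gs χ i‖ ^ 2) := by ring
    _ ≤ ((Int.gcd i q : ℝ) * Nat.totient q') * (Nat.totient q * ‖Gs χ i‖ ^ 2) :=
        mul_le_mul_of_nonneg_right h5 (mul_nonneg hφ.le hG)
    _ = (Int.gcd i q : ℝ) * (Nat.totient q' * ‖Gs χ i‖ ^ 2 * Nat.totient q) := by ring
    _ ≤ (Int.gcd i q : ℝ) * q := mul_le_mul_of_nonneg_left hsum hδ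
    _ = q * (Int.gcd i q : ℝ) := mul_comm _ _

end Pool.Agent.Helper78.E3
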